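import Pool.Agent.Lib.H71G.Few

set_option autoImplicit false

namespace Pool.Agent.Results.MP_095f99_an.FewSensitivePatterns

/-- The partial patterns on M minus I which do not determine the value of the local rule μ : A^M → A. -/
def Sens {G A : Type} (M : Finset G) (μ : (M → A) → A) (I : Finset G) : Set ({m : G // m ∈ M ∧ m ∉ I} → A) :=
  {q | ∃ p p' : M → A, (∀ (m : G) (hm : m ∈ M ∧ m ∉ I), p ⟨m, hm.1⟩ = q ⟨m, hm⟩ ∧ p' ⟨m, hm.1⟩ = q ⟨m, hm⟩) ∧
    μ p ≠ μ p'}

/-- Cellular automata with few sensitive partial patterns, over arbitrary groups. -/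
theorem result (G : Type) [Group G] (A : Type) [Finite A] (M : Finset G) (hM : 1 ∈ M) (μ : (M → A) → A)
    (S : Finset G) (w : G → ℕ) (hw : ∀ g, w g⁻¹ = w g) (hS : ∀ g, w g ≠ 0 → g ∈ S)
    (hfew : ∀ I : Finset G, I ⊆ M → 1 ∉ I → 2 * ∑ i ∈ I, w i ≤ ∑ s ∈ S, w s →
      4 * M.card ^ 2 * Nat.card (Sens M μ I) ≤ Nat.card A ^ (M.card - I.card))
    (hinj : ∀ x y : G → A, {g | x g ≠ y g}.Finite →
      (∀ g, μ (fun m => x (g * m)) = μ (fun m => y (g * m))) → x = y) :
    Function.Surjective (fun (x : G → A) (g : G) => μ (fun m => x (g * m))) :=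
  H71G.few M hM μ S w hw hS hfew hinj

/-- The special case of a rule which differs from a function of the own state on few patterns. -/
theorem few_active (G : Type) [Group G] (A : Type) [Finite A] (M : Finset G) (hM : 1 ∈ M) (hsym : ∀ m ∈ M, m⁻¹ ∈ M)
    (μ : (M → A) → A) (π : A → A)
    (hfew : 4 * M.card ^ 2 * Nat.card {p : M → A // μ p ≠ π (p ⟨1, hM⟩)} ≤ Nat.card A ^ (M.card / 2 + 1))
    (hinj : Function.Injective (fun (x : G → A) (g : G) => μ (fun m => x (g * m)))) :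
    Function.Surjective (fun (x : G → A) (g : G) => μ (fun m => x (g * m))) := by
  classical
  by_cases hA : Nonempty A
  swap
  · intro y
    exact absurd ⟨y 1⟩ hA
  have hA1 : 1 ≤ Nat.card A := Nat.one_le_iff_ne_zero.2 (Nat.card_ne_zero.2 ⟨hA, inferInstance⟩)
  refine result G A M hM μ (M.erase 1) (fun g => if g ∈ M.erase 1 then 1 else 0) ?_ ?_ ?_ ?_
  · intro g
    have : g⁻¹ ∈ M.erase 1 ↔ g ∈ M.erase 1 := by
      rw [Finset.mem_erase, Finset.mem_erase]
      constructor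
      · rintro ⟨h1, h2⟩
        refine ⟨fun h => h1 (by rw [h, inv_one]), ?_⟩
        have := hsym _ h2
        rwa [inv_inv] at this
      · rintro ⟨h1, h2⟩
        exact ⟨fun h => h1 (inv_eq_one.1 h), hsym _ h2⟩
    by_cases hg : g ∈ M.erase 1
    · rw [if_pos (this.2 hg), if_pos hg]
    · rw [if_neg (fun h => hg (this.1 h)), if_neg hg]
  · intro g hg
    by_contra h
    exact hg (if_neg h)
  · intro I hI hI1 hIw
    have h1 : ∑ i ∈ I, (if i ∈ M.erase 1 then 1 else 0) = I.card := by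
      rw [Finset.card_eq_sum_ones]
      refine Finset.sum_congr rfl fun i hi => if_pos ?_
      exact Finset.mem_erase.2 ⟨fun h => hI1 (h ▸ hi), hI hi⟩
    have h2 : ∑ i ∈ M.erase 1, (if i ∈ M.erase 1 then 1 else 0) = M.card - 1 := by
      rw [← Finset.card_erase_of_mem hM, Finset.card_eq_sum_ones]
      exact Finset.sum_congr rfl fun i hi => if_pos hi
    rw [h1, h2] at hIw
    have hMc : 0 < M.card := Finset.card_pos.2 ⟨1, hM⟩
    have h3 : M.card / 2 + 1 ≤ M.card - I.card := by omega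
    have h4 : Nat.card (Sens M μ I) ≤ Nat.card {p : M → A // μ p ≠ π (p ⟨1, hM⟩)} := by
      have hex : ∀ q : Sens M μ I, ∃ p : {p : M → A // μ p ≠ π (p ⟨1, hM⟩)},
          ∀ (m : G) (hm : m ∈ M ∧ m ∉ I), p.1 ⟨m, hm.1⟩ = q.1 ⟨m, hm⟩ := by
        rintro ⟨q, p, p', hpp, hne⟩
        have e1 := hpp 1 ⟨hM, hI1⟩
        by_cases hp : μ p = π (p ⟨1, hM⟩)
        · refine ⟨⟨p', fun h => hne ?_⟩, fun m hm => (hpp m hm).2⟩
          rw [hp, h, e1.1, e1.2]
        · exact ⟨⟨p, hp⟩, fun m hm => (hpp m hm).1⟩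
      choose φ hφ using hex
      refine Nat.card_le_card_of_injective φ fun q q' hqq => ?_
      apply Subtype.ext
      funext m
      rw [← hφ q m.1 m.2, ← hφ q' m.1 m.2, hqq]
    calc 4 * M.card ^ 2 * Nat.card (Sens M μ I)
        ≤ 4 * M.card ^ 2 * Nat.card {p : M → A // μ p ≠ π (p ⟨1, hM⟩)} := Nat.mul_le_mul_left _ h4
      _ ≤ Nat.card A ^ (M.card / 2 + 1) := hfew
      _ ≤ Nat.card A ^ (M.card - I.card) := Nat.pow_le_pow_right hA1 h3
  · intro x y _ h
    exact hinj (funext h)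

end Pool.Agent.Results.MP_095f99_an.FewSensitivePatterns
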