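import Pool.Agent.Lib.H71G.Sub

set_option autoImplicit false

namespace Pool.Agent.Results.MP_095f99_an.MajorityStableBackground

/-- Gottschalk's surjunctivity conjecture holds for the group H: for every finite alphabet, every injective continuous
self-map of the full shift over H which commutes with the shift action of H is surjective. -/
def Surjunctive (H : Type) [Group H] : Prop :=
  ∀ (A : Type) [Finite A] [TopologicalSpace A] [DiscreteTopology A] (σ : (H → A) → (H → A)), Continuous σ →
    (∀ (h : H) (x : H → A), σ (fun k => x (h⁻¹ * k)) = fun k => σ x (h⁻¹ * k)) →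
    Function.Injective σ → Function.Surjective σ

open Classical in
/-- Cellular automata with a background which is stable against minorities. -/
theorem result (G : Type) [Group G] (H : Subgroup G) (hH : Surjunctive H)
    (A : Type) [Finite A] [TopologicalSpace A] [DiscreteTopology A]
    (τ : (G → A) → (G → A)) (hτ : Continuous τ)
    (hequ : ∀ h ∈ H, ∀ x : G → A, τ (fun g => x (h⁻¹ * g)) = fun g => τ x (h⁻¹ * g))
    (S : Finset G) (w : G → ℕ) (hw : ∀ g, w g⁻¹ = w g) (hS : ∀ g, w g ≠ 0 → g ∈ S)
    (c : G → A) (hc : ∀ h ∈ H, ∀ g, c (h * g) = c g)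
    (hstable : ∀ (g : G) (E : Set G) (x : G → A), (∀ h ∈ H, ∀ u ∈ E, h * u ∈ E) → g ∉ E →
      (∀ u, u ∉ E → x u = c u) →
      2 * ∑ s ∈ S with g * s ∈ E, w s ≤ ∑ s ∈ S with g * s * g⁻¹ ∉ H, w s → τ x g = τ c g)
    (hinj : ∀ x y : G → A, (∃ F : Finset G, ∀ g, x g ≠ y g → ∃ h ∈ H, ∃ f ∈ F, g = h * f) → τ x = τ y → x = y) :
    Function.Surjective τ := by
  refine H71G.rel_robust hH τ hτ hequ (fun g => S.image (fun s => g * s)) (fun g u => w (g⁻¹ * u)) ?_ ?_ ?_ c hc ?_ hinj
  · intro u v
    show w (u⁻¹ * v) = w (v⁻¹ * u)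
    rw [← hw (u⁻¹ * v)]
    congr 1
    group
  · intro u v hne
    exact Finset.mem_image.2 ⟨u⁻¹ * v, hS _ hne, by group⟩
  · intro h _ u v
    show w ((h * u)⁻¹ * (h * v)) = w (u⁻¹ * v)
    congr 1
    group
  · intro g E x hE hg hx hle
    refine hstable g E x hE hg hx ?_
    have h1 : ∀ (P : G → Prop) [DecidablePred P], ∑ u ∈ (S.image (fun s => g * s)).filter P, w (g⁻¹ * u) =
        ∑ s ∈ S.filter (fun s => P (g * s)), w s := by
      intro P _
      rw [Finset.filter_image, Finset.sum_image (by intro a _ b _ hab; exact mul_left_cancel hab)]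
      refine Finset.sum_congr rfl fun s _ => ?_
      congr 1
      group
    rw [h1 (fun u => u ∈ E), h1 (fun u => u * g⁻¹ ∉ H)] at hle
    exact hle

/-- The special case of the trivial subgroup and a constant background: a state a of a cellular automaton with symmetric
neighbourhood S such that a cell in state a of which at least half of the neighbours are in state a takes the value b. -/
theorem majority_state (G : Type) [Group G] (A : Type) [Finite A] (S : Finset G) (hS : ∀ s ∈ S, s⁻¹ ∈ S)
    (h1 : (1 : G) ∉ S) (μ : A → (S → A) → A) (a b : A)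
    (hab : ∀ p : S → A, Nat.card S ≤ 2 * Nat.card {s : S // p s = a} → μ a p = b)
    (hinj : ∀ x y : G → A, {g | x g ≠ y g}.Finite →
      (∀ g, μ (x g) (fun s => x (g * s)) = μ (y g) (fun s => y (g * s))) → x = y) :
    Function.Surjective (fun (x : G → A) (g : G) => μ (x g) (fun s => x (g * s))) := by
  classical
  letI : TopologicalSpace A := ⊥
  haveI : DiscreteTopology A := ⟨rfl⟩
  have hsurj : Surjunctive (⊥ : Subgroup G) := by
    intro B _ _ _ σ _ _ hσ
    exact (Finite.injective_iff_surjective (α := (⊥ : Subgroup G) → B)).1 hσ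
  have hcont : Continuous (fun (x : G → A) (g : G) => μ (x g) (fun s => x (g * s))) := by
    refine continuous_pi fun g => ?_
    have h2 : Continuous (fun z : A × (S → A) => μ z.1 z.2) := continuous_of_discreteTopology
    have h3 : Continuous (fun x : G → A => ((x g, fun s : S => x (g * s)) : A × (S → A))) :=
      (continuous_apply g).prodMk (continuous_pi fun s => continuous_apply (g * s.1))
    exact h2.comp h3
  have hcard : ∑ s ∈ S, (if s ∈ S then 1 else 0) = S.card := by
    rw [Finset.card_eq_sum_ones]
    exact Finset.sum_congr rfl fun s hs => if_pos hs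
  refine result G ⊥ hsurj A (fun (x : G → A) (g : G) => μ (x g) (fun s => x (g * s))) hcont ?_ S
    (fun g => if g ∈ S then 1 else 0) ?_ ?_ (fun _ => a) (fun _ _ _ => rfl) ?_ ?_
  · intro h hh x
    rw [Subgroup.mem_bot] at hh
    subst hh
    funext g
    simp
  · intro g
    have : g⁻¹ ∈ S ↔ g ∈ S := ⟨fun h => by have := hS _ h; rwa [inv_inv] at this, hS g⟩
    by_cases hg : g ∈ S
    · rw [if_pos (this.2 hg), if_pos hg]
    · rw [if_neg (fun h => hg (this.1 h)), if_neg hg]
  · intro g hg
    by_contra h
    exact hg (if_neg h)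
  · intro g E x _ hg hx hle
    have e1 : ∑ s ∈ S with g * s ∈ E, (if s ∈ S then 1 else 0) = (S.filter (fun s => g * s ∈ E)).card := by
      rw [Finset.card_eq_sum_ones]
      exact Finset.sum_congr rfl fun s hs => if_pos (Finset.mem_filter.1 hs).1
    have e2 : ∑ s ∈ S with g * s * g⁻¹ ∉ (⊥ : Subgroup G), (if s ∈ S then 1 else 0) ≤ S.card := by
      calc _ ≤ ∑ s ∈ S, (if s ∈ S then 1 else 0) := Finset.sum_le_sum_of_subset (Finset.filter_subset _ _)
        _ = S.card := hcard
    have e3 : 2 * (S.filter (fun s => g * s ∈ E)).card ≤ S.card := by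
      rw [← e1]
      exact hle.trans e2
    have key : ∀ p : S → A, (∀ s : S, g * s.1 ∉ E → p s = a) → μ a p = b := by
      intro p hp
      apply hab
      have e4 : (S.filter (fun s => g * s ∉ E)).card ≤ Nat.card {s : S // p s = a} := by
        rw [Nat.card_eq_fintype_card, ← Fintype.card_coe]
        refine Fintype.card_le_of_injective (fun s => ⟨⟨s.1, (Finset.mem_filter.1 s.2).1⟩,
          hp _ (Finset.mem_filter.1 s.2).2⟩) ?_
        intro s s' hss
        have := congrArg (fun z : {s : S // p s = a} => z.1.1) hss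
        exact Subtype.ext this
      have e5 : (S.filter (fun s => g * s ∈ E)).card + (S.filter (fun s => g * s ∉ E)).card = S.card :=
        Finset.card_filter_add_card_filter_not _
      have e6 : Nat.card S = S.card := by rw [Nat.card_eq_fintype_card, Fintype.card_coe]
      omega
    show μ (x g) (fun s => x (g * s)) = μ a (fun _ => a)
    rw [hx g hg, key _ (fun s hs => hx _ hs), key _ (fun _ _ => rfl)]
  · intro x y hxy h
    obtain ⟨F, hF⟩ := hxy
    refine hinj x y ?_ (fun g => congrFun h g)
    refine F.finite_toSet.subset fun g hg => ?_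
    obtain ⟨k, hk, f, hf, rfl⟩ := hF g hg
    rw [Subgroup.mem_bot] at hk
    rw [hk, one_mul]
    exact hf

end Pool.Agent.Results.MP_095f99_an.MajorityStableBackground
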