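import Pool.Agent.Lib.H71G.Elem

set_option autoImplicit false

namespace Pool.Agent.Results.MP_095f99_an.ThreeCellRules

open H71G

theorem shift_eq {G : Type} [Group G] (a b c : G) (f : Bool → Bool → Bool → Bool) (x : G → Bool) (g : G) :
    f (x (g * a)) (x (g * b)) (x (g * c)) = F3 f (a⁻¹ * b) (a⁻¹ * c) x (g * a) := by
  unfold F3
  rw [mul_assoc g a, mul_inv_cancel_left, mul_assoc g a, mul_inv_cancel_left]

/-- Binary cellular automata with three cells over arbitrary groups. -/
theorem result (G : Type) [Group G] (a b c : G) (f : Bool → Bool → Bool → Bool)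
    (hinj : Function.Injective (fun (x : G → Bool) (g : G) => f (x (g * a)) (x (g * b)) (x (g * c)))) :
    (Function.Surjective (fun (x : G → Bool) (g : G) => f (x (g * a)) (x (g * b)) (x (g * c))) ∧
      ((∃ h : G, a⁻¹ * b ∈ Subgroup.zpowers h ∧ a⁻¹ * c ∈ Subgroup.zpowers h) ∨
        ∃ e : Bool, (∀ x y z, f x y z = xor e x) ∨ (∀ x y z, f x y z = xor e y) ∨ (∀ x y z, f x y z = xor e z))) ∨
    ∃ e : Bool, ∀ x y z, f x y z = xor e (xor x (xor y z)) := by
  have hinj' : Function.Injective (F3 f (a⁻¹ * b) (a⁻¹ * c)) := by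
    intro x y hxy
    apply hinj
    funext g
    show f (x (g * a)) (x (g * b)) (x (g * c)) = f (y (g * a)) (y (g * b)) (y (g * c))
    rw [shift_eq a b c f x g, shift_eq a b c f y g, hxy]
  by_cases hcyc : ∃ h : G, a⁻¹ * b ∈ Subgroup.zpowers h ∧ a⁻¹ * c ∈ Subgroup.zpowers h
  · left
    refine ⟨?_, Or.inl hcyc⟩
    obtain ⟨h, hb, hc⟩ := hcyc
    obtain ⟨i, hi⟩ := Subgroup.mem_zpowers_iff.1 hb
    obtain ⟨j, hj⟩ := Subgroup.mem_zpowers_iff.1 hc
    have key : ∀ (x : G → Bool) (g : G), (fun p : Fin 3 → Bool => f (p 0) (p 1) (p 2))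
        (fun k => x (g * h ^ (![0, i, j] : Fin 3 → ℤ) k)) = F3 f (a⁻¹ * b) (a⁻¹ * c) x g := by
      intro x g
      show f (x (g * h ^ (0 : ℤ))) (x (g * h ^ i)) (x (g * h ^ j)) = f (x g) (x (g * (a⁻¹ * b))) (x (g * (a⁻¹ * c)))
      rw [zpow_zero, mul_one, hi, hj]
    have h1 := cyclic_memory (G := G) (A := Bool) h (![0, i, j] : Fin 3 → ℤ)
      (fun p : Fin 3 → Bool => f (p 0) (p 1) (p 2)) (by
        intro x y hxy
        apply hinj'
        funext g
        rw [← key x g, ← key y g]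
        exact congrFun hxy g)
    intro y
    obtain ⟨x, hx⟩ := h1 (fun g => y (g * a⁻¹))
    refine ⟨x, funext fun g => ?_⟩
    have h2 := congrFun hx (g * a)
    show f (x (g * a)) (x (g * b)) (x (g * c)) = y g
    rw [shift_eq a b c f x g, ← key x (g * a)]
    refine h2.trans ?_
    show y (g * a * a⁻¹) = y g
    rw [mul_inv_cancel_right]
  · obtain ⟨e, h | h | h | h⟩ := classify hinj' hcyc
    · left
      refine ⟨?_, Or.inr ⟨e, Or.inl h⟩⟩
      intro y
      refine ⟨fun g => xor e (y (g * a⁻¹)), funext fun g => ?_⟩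
      show f _ _ _ = y g
      rw [h]
      show xor e (xor e (y (g * a * a⁻¹))) = y g
      rw [mul_inv_cancel_right]
      cases e <;> cases y g <;> rfl
    · left
      refine ⟨?_, Or.inr ⟨e, Or.inr (Or.inl h)⟩⟩
      intro y
      refine ⟨fun g => xor e (y (g * b⁻¹)), funext fun g => ?_⟩
      show f _ _ _ = y g
      rw [h]
      show xor e (xor e (y (g * b * b⁻¹))) = y g
      rw [mul_inv_cancel_right]
      cases e <;> cases y g <;> rfl
    · left
      refine ⟨?_, Or.inr ⟨e, Or.inr (Or.inr h)⟩⟩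
      intro y
      refine ⟨fun g => xor e (y (g * c⁻¹)), funext fun g => ?_⟩
      show f _ _ _ = y g
      rw [h]
      show xor e (xor e (y (g * c * c⁻¹))) = y g
      rw [mul_inv_cancel_right]
      cases e <;> cases y g <;> rfl
    · exact Or.inr ⟨e, h⟩

end Pool.Agent.Results.MP_095f99_an.ThreeCellRules
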